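import Mathlib
import Pool.Agent.Lib.MP_3c1a32_coX.Main2

/-!
Strongly regular graphs that are locally generalized quadrangles `GQ(q,q)` with the largest
possible number `2 (q² + 1)` of common neighbours of two nonadjacent vertices.
-/

set_option autoImplicit false

namespace Pool.Agent.Results.MP_3c1a32_co.HighMu

open Pool.Agent.MP3c1a32

/-- Let `G` be a strongly regular graph with parameters `(v,k,l,m)`, not edgeless, such that for
every vertex `x` the neighbourhood of `x` is isomorphic to the collinearity graph of some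
generalized quadrangle `GQ(q,q)` (`LocGQ G x q q`), `q ≥ 2`. If `m = 2 (q² + 1)`, then `q = 2` and
`(v,k,l,m) = (28,15,6,10)`. -/
theorem result {V : Type} [Fintype V] [DecidableEq V] (G : SimpleGraph V) [DecidableRel G.Adj]
    {v k l m : ℕ} (hG : G.IsSRGWith v k l m) (hbot : G ≠ ⊥) {q : ℕ} (hq : 2 ≤ q)
    (hloc : ∀ x, LocGQ G x q q) (hm : m = 2 * (q ^ 2 + 1)) :
    q = 2 ∧ (v, k, l, m) = (28, 15, 6, 10) := by
  refine ⟨le_antisymm (high_le_two (by rw [← hm]; exact hG) hbot hloc hq) hq, ?_⟩
  exact srg_high hG hbot hloc hq (by rw [hm]; ring)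

end Pool.Agent.Results.MP_3c1a32_co.HighMu
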