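import Mathlib
import Pool.Agent.Lib.MP_3c1a32_coL.LMain
import Pool.Agent.Lib.MP_3c1a32_co.Local

/-!
Graphs that are locally generalized quadrangles `GQ(q,q)` with the smallest possible number
`2 (q + 1)` of common neighbours of two vertices at distance two.
-/

set_option autoImplicit false

namespace Pool.Agent.Results.MP_3c1a32_co.LowMu

open Pool.Agent.MP3c1a32

/-- Let `G` be a finite graph with at least one edge such that for every vertex `x` the
neighbourhood of `x` is isomorphic to the collinearity graph of some generalized quadrangle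
`GQ(q,q)` (`LocGQ G x q q`), `q ≥ 2`, and such that every two vertices at distance two have
exactly `2 (q + 1)` common neighbours. Then `q ≤ 4`. -/
theorem result {V : Type} [Finite V] (G : SimpleGraph V) (hbot : G ≠ ⊥) {q : ℕ} (hq : 2 ≤ q)
    (hloc : ∀ x, LocGQ G x q q)
    (hmu : ∀ x y, x ≠ y → ¬ G.Adj x y → (∃ z, G.Adj x z ∧ G.Adj y z) →
      {z | G.Adj x z ∧ G.Adj y z}.ncard = 2 * (q + 1)) : q ≤ 4 := by
  classical
  have := Fintype.ofFinite V
  obtain ⟨x, y, hxy⟩ := SimpleGraph.ne_bot_iff_exists_adj.mp hbot
  obtain ⟨K, hKc, hKx, hK⟩ := (hloc x).exists_clique ⟨y, hxy⟩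
  have hxK : x ∉ K := fun hx => (hKx x hx).ne rfl
  refine low_le_four (C := ((insert x K : Finset V) : Set V)) (base_of_loc (by omega) hloc) hmu hq
    ⟨?_, ?_⟩
  · rw [Set.ncard_coe_finset, Finset.card_insert_of_notMem hxK, hKc]
  · intro a ha b hb hab
    rw [Finset.mem_coe, Finset.mem_insert] at ha hb
    rcases ha with rfl | ha
    · rcases hb with rfl | hb
      · exact absurd rfl hab
      · exact hKx b hb
    · rcases hb with rfl | hb
      · exact (hKx a ha).symm
      · exact hK a ha b hb hab

end Pool.Agent.Results.MP_3c1a32_co.LowMu
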