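import Mathlib
import Pool.Agent.Lib.MP_3c1a32_coX.Main2

/-!
Strongly regular graphs that are locally generalized quadrangles `GQ(s,t)`, for `s` and `t` powers
of the same prime.
-/

set_option autoImplicit false

namespace Pool.Agent.Results.MP_3c1a32_co.PrimePowerOrders

open Pool.Agent.MP3c1a32

/-- Let `G` be a strongly regular graph with parameters `(v,k,l,m)`, not edgeless, such that for
every vertex `x` the neighbourhood of `x` is isomorphic to the collinearity graph of some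
generalized quadrangle `GQ(s,t)`, where `(s,t)` may depend on `x` (`LocGQ G x s t`). Suppose that
for some vertex `x₀` we have `s = p ^ i`, `t = p ^ j` with `p` prime and `i, j ≥ 1`. Then
`LocGQ G x (p ^ i) (p ^ j)` for every vertex `x`, `k = (s + 1)(s t + 1)`, `l = s (t + 1)`, and

* if `i < j` then `(v,k,l,m)` is one of `(64,27,10,12)`, `(275,112,30,56)`, `(486,165,36,66)`,
  `(870,165,36,30)`, `(242194,8721,528,306)`;
* if `i = j` then `(v,k,l,m)` is one of `(28,15,6,10)`, `(36,15,6,6)`, `(176,40,12,8)`,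
  `(630,85,20,10)`, `(3914,585,72,90)`;
* if `j < i` then `m = 2 (s t + 1)` and `t + 1 ∣ (s ^ 2 - 1)(s + 2)`, or `m = 2 (s + 1)` and
  `s + 2 ∣ 8 t (t ^ 2 - 1)(2 t - 1)`;
* if `(s,t) = (q ^ 3, q ^ 2)` then `(v,k,l,m) = (1450,297,40,66)`;
* if `(s,t) = (q ^ 2, q)` then `m = 2 (q ^ 3 + 1)`, or `(v,k,l,m)` is `(190,45,12,10)` or
  `(200152,3276,150,52)`. -/
theorem result {V : Type} [Fintype V] [DecidableEq V] (G : SimpleGraph V) [DecidableRel G.Adj]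
    {v k l m : ℕ} (hG : G.IsSRGWith v k l m) (hbot : G ≠ ⊥)
    (hloc : ∀ x, ∃ s t, LocGQ G x s t)
    {x₀ : V} {p i j : ℕ} (hp : p.Prime) (hi : 1 ≤ i) (hj : 1 ≤ j)
    (hx₀ : LocGQ G x₀ (p ^ i) (p ^ j)) :
    (∀ x, LocGQ G x (p ^ i) (p ^ j)) ∧
    k = (p ^ i + 1) * (p ^ i * p ^ j + 1) ∧ l = p ^ i * (p ^ j + 1) ∧
    (i < j → (v, k, l, m) = (64, 27, 10, 12) ∨ (v, k, l, m) = (275, 112, 30, 56) ∨
      (v, k, l, m) = (486, 165, 36, 66) ∨ (v, k, l, m) = (870, 165, 36, 30) ∨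
      (v, k, l, m) = (242194, 8721, 528, 306)) ∧
    (i = j → (v, k, l, m) = (28, 15, 6, 10) ∨ (v, k, l, m) = (36, 15, 6, 6) ∨
      (v, k, l, m) = (176, 40, 12, 8) ∨ (v, k, l, m) = (630, 85, 20, 10) ∨
      (v, k, l, m) = (3914, 585, 72, 90)) ∧
    (j < i → (m = 2 * (p ^ i * p ^ j + 1) ∧ (p ^ j + 1) ∣ ((p ^ i) ^ 2 - 1) * (p ^ i + 2)) ∨
      (m = 2 * (p ^ i + 1) ∧ (p ^ i + 2) ∣ 8 * p ^ j * ((p ^ j) ^ 2 - 1) * (2 * p ^ j - 1))) ∧
    (2 * i = 3 * j → (v, k, l, m) = (1450, 297, 40, 66)) ∧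
    (i = 2 * j → m = 2 * (p ^ i * p ^ j + 1) ∨ (v, k, l, m) = (190, 45, 12, 10) ∨
      (v, k, l, m) = (200152, 3276, 150, 52)) :=
  main2 hG hbot hloc hp hi hj hx₀

end Pool.Agent.Results.MP_3c1a32_co.PrimePowerOrders
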